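import Pool.Agent.Work.MP_14af4f_an.Main
import Pool.Agent.Work.MP_14af4f_an.TwoPos

/-!
An open set of families of plane endomorphisms accumulating on the product quadratic family, each
having, for an interval of parameters, an ergodic absolutely continuous invariant probability
measure with two positive Lyapunov exponents.
-/

open Set Pool.Agent.Work.MP_14af4f_an
open scoped ContDiff

namespace Pool.Agent.Results.MP_14af4f_an.TwoExponents

theorem result (a1 a2 : ℝ) (h1 : a1 ≤ -2) (h2 : -2 ≤ a2) (h : a1 < a2) :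
    ∃ U : Set (ℝ × P2 → P2), (∀ F ∈ U, ContDiff ℝ ∞ F) ∧
      (∀ F ∈ U, ∃ (K : Set P2) (δ : ℝ), IsCompact K ∧ 0 < δ ∧
        ∀ G, ContDiff ℝ ∞ G → CloseOn 2 (Icc a1 a2 ×ˢ K) δ F G → G ∈ U) ∧
      (∃ K : Set P2, IsCompact K ∧ ∀ (r : ℕ) (ε : ℝ), 0 < ε → ∃ F ∈ U,
        CloseOn r univ ε F prodFam ∧ ∀ a, ∀ z ∉ K, F (a, z) = prodFam (a, z)) ∧
      ∀ F ∈ U, ∃ b1 b2, a1 ≤ b1 ∧ b1 < b2 ∧ b2 ≤ a2 ∧
        ∀ a ∈ Icc b1 b2, TwoPos fun z => F (a, z) := by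
  obtain ⟨U, k1, k2, k3, k4⟩ := main a1 a2 h1 h2 h
  refine ⟨U, k1, k2, k3, fun F hF => ?_⟩
  obtain ⟨b1, b2, l1, l2, l3, l4⟩ := k4 F hF
  refine ⟨b1, b2, l1, l2, l3, fun a ha => twoPos_of_good ?_ (l4 a ha)⟩
  exact ((k1 F hF).comp (contDiff_const.prodMk contDiff_id)).of_le (by simp)

end Pool.Agent.Results.MP_14af4f_an.TwoExponents
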